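import Pool.Agent.P.MP_4a6a31_lc.Choice

open Pool.Agent.P.MP_4a6a31_lc

/-- For every cardinal `κ` there is a well-founded model of ZFU with Replacement, Collection,
choice for well-ordered families, Plenitude and dependent choice of every length of size at most
`κ`, with ordinals of every size, in which weak reflection fails. -/
theorem Pool.Agent.Results.MP_4a6a31_lc.DependentChoice.result (κ : Cardinal.{0}) :
    ∃ (M : Type 1) (E : M → M → Prop) (U : M → Prop), WellFounded E ∧ ZFUR E U ∧ Coll E U ∧
      ACWO E U ∧ Plen E U ∧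
      (∀ k, Ord E U k → Cardinal.mk {x // E x k} ≤ Cardinal.lift.{1} κ → DC E U k) ∧
      (∀ c : Cardinal.{0}, ∃ k, Ord E U k ∧ Cardinal.mk {x // E x k} = Cardinal.lift.{1} c) ∧
      ¬ RPm E U := by
  have hκ : Cardinal.aleph0 ≤ max κ Cardinal.aleph0 := le_max_right _ _
  have hI : max κ Cardinal.aleph0 < Cardinal.mk (Order.succ (max κ Cardinal.aleph0)).out := by
    rw [Cardinal.mk_out]
    exact Order.lt_succ _
  exact ⟨_, (frame (idlC hκ hI)).E, (frame (idlC hκ hI)).U, Frame.wfE, Frame.zfur, Frame.coll,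
    acwo hκ hI, plen hκ hI,
    fun k hk hc => dc hκ hI k hk (hc.trans (Cardinal.lift_le.2 (le_max_left _ _))),
    Frame.ord_card, not_rpm _⟩
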