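import Pool.Agent.P.MP_4a6a31_lc.Choice

open Pool.Agent.P.MP_4a6a31_lc

/-- There is a well-founded model of ZFU with Replacement, Collection and multiple choice in which
weak reflection fails. -/
theorem Pool.Agent.Results.MP_4a6a31_lc.MultipleChoice.result :
    ∃ (M : Type 1) (E : M → M → Prop) (U : M → Prop), WellFounded E ∧ ZFUR E U ∧ Coll E U ∧
      MC E U ∧ ¬ RPm E U :=
  ⟨_, (frame (idlF ℝ)).E, (frame (idlF ℝ)).U, Frame.wfE, Frame.zfur, Frame.coll, mc, not_rpm _⟩
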