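import Pool.Agent.P.MP_4a6a31_lc.OP.Ult

open Pool.Agent.P.MP_4a6a31_lc

/-- There is a well-founded model of ZFU with Replacement and Collection in which every filter
base `F` on a set `x` extends to an ultrafilter `s` on `x` that is a set of the model and weak
reflection fails. -/
theorem Pool.Agent.Results.MP_4a6a31_lc.PrimeIdeal.result :
    ∃ (M : Type 1) (E : M → M → Prop) (U : M → Prop), WellFounded E ∧ ZFUR E U ∧ Coll E U ∧
      (∀ x F, (∃ y, E y F) → (∀ y, E y F → (∀ a, E a y → E a x) ∧ ∃ a, E a y) →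
        (∀ y y', E y F → E y' F → ∃ z, E z F ∧ ∀ a, E a z → E a y ∧ E a y') →
        ∃ s, (∀ y, E y F → E y s) ∧ (∀ y, E y s → (∀ a, E a y → E a x) ∧ ∃ a, E a y) ∧
          (∀ y y' z, E y s → E y' s → ¬ U z → (∀ a, E a z → E a x) →
            (∀ a, E a y → E a y' → E a z) → E z s) ∧
          ∀ y z, ¬ U y → (∀ a, E a y → E a x) → ¬ U z → (∀ a, E a z → E a x) →
            (∀ a, E a x → E a y ∨ E a z) → E y s ∨ E z s) ∧ ¬ RPm E U :=
  ⟨_, (OP.fq ℝ).E, (OP.fq ℝ).U, Frame.wfE, Frame.zfur, Frame.coll, OP.ultQ, OP.not_rpmQ⟩
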