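import Pool.Agent.P.MP_4a6a31_lc.SP.NoR

open Pool.Agent.P.MP_4a6a31_lc

/-- There is a well-founded model of ZFU with Replacement and Collection in which every set is
mapped injectively to urelements by a function of the model and weak reflection fails. -/
theorem Pool.Agent.Results.MP_4a6a31_lc.StrongPlenitude.result :
    ∃ (M : Type 1) (E : M → M → Prop) (U : M → Prop), WellFounded E ∧ ZFUR E U ∧ Coll E U ∧
      (∀ x, ∃ f, Fn E U f x ∧ (∀ a b, App E f a b → U b) ∧
        ∀ a a' b, App E f a b → App E f a' b → a = a') ∧ ¬ RPm E U :=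
  ⟨_, (SP.fr ℝ).E, (SP.fr ℝ).U, Frame.wfE, Frame.zfur, Frame.coll, SP.plus, SP.not_rpm2⟩
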